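import Pool.Agent.V8H14.MHA.Acy
import Pool.Agent.V8H61.MC.Flat

/-!
# The geometry of the faces
-/

set_option autoImplicit false

namespace Pool.Agent.V8H61.MB

open Pool.Agent.V8H14.MHA Pool.Agent.V8H61.MC

section abstract

variable {Φ : Type} [PartialOrder Φ]

/-- Adding finitely many points whose upper links in `P` are acyclic. -/
theorem acy_add {P : Set Φ} (h : Acy P) (D : Finset Φ) (hdisj : ∀ s ∈ D, s ∉ P)
    (hl : ∀ s ∈ D, Acy {x | x ∈ P ∧ s < x}) : Acy (P ∪ (D : Set Φ)) := by
  classical
  induction hn : D.card generalizing D with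
  | zero =>
    rw [Finset.card_eq_zero] at hn
    subst hn
    simpa using h
  | succ n ih =>
    have hne : D.Nonempty := by
      rw [← Finset.card_pos, hn]
      exact Nat.succ_pos n
    obtain ⟨s, hs⟩ := D.exists_maximal hne
    have h1 := ih (D.erase s) (fun t ht => hdisj t (Finset.mem_of_mem_erase ht))
      (fun t ht => hl t (Finset.mem_of_mem_erase ht)) (by rw [Finset.card_erase_of_mem hs.1, hn]; rfl)
    have h2 : P ∪ (D : Set Φ) = insert s (P ∪ ((D.erase s : Finset Φ) : Set Φ)) := by
      ext x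
      simp only [Set.mem_union, Finset.mem_coe, Set.mem_insert_iff, Finset.mem_erase]
      constructor
      · rintro (hx | hx)
        · exact Or.inr (Or.inl hx)
        · by_cases hxs : x = s
          · exact Or.inl hxs
          · exact Or.inr (Or.inr ⟨hxs, hx⟩)
      · rintro (rfl | hx | hx)
        · exact Or.inr hs.1
        · exact Or.inl hx
        · exact Or.inr hx.2
    rw [h2]
    refine acy_insert ?_ h1 ?_
    · rintro (hx | hx)
      · exact hdisj s hs.1 hx
      · rw [Finset.mem_coe, Finset.mem_erase] at hx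
        exact hx.1 rfl
    · have h3 : {x | x ∈ P ∪ ((D.erase s : Finset Φ) : Set Φ) ∧ s < x} = {x | x ∈ P ∧ s < x} := by
        ext x
        constructor
        · rintro ⟨hx | hx, hsx⟩
          · exact ⟨hx, hsx⟩
          · rw [Finset.mem_coe, Finset.mem_erase] at hx
            exact absurd hsx (hs.not_gt hx.2)
        · rintro ⟨hx, hsx⟩
          exact ⟨Or.inl hx, hsx⟩
      rw [h3]
      exact hl s hs.1

/-- A union of down-sets with acyclic intersections is acyclic. -/
theorem acy_cover {κ : Type} [DecidableEq κ] (P : Set Φ) (D : κ → Set Φ)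
    (hD : ∀ H x y, x ∈ P → y ∈ P → y ≤ x → x ∈ D H → y ∈ D H)
    (hA : ∀ T : Finset κ, Acy {x | x ∈ P ∧ ∀ H ∈ T, x ∈ D H}) (S : Finset κ) :
    S.Nonempty → ∀ T0 : Finset κ, Acy {x | x ∈ P ∧ (∀ H ∈ T0, x ∈ D H) ∧ ∃ H ∈ S, x ∈ D H} := by
  induction S using Finset.induction_on with
  | empty => intro h; exact absurd h Finset.not_nonempty_empty
  | insert H S _ ih =>
    intro _ T0
    by_cases hS : S.Nonempty
    · have h1 : {x | x ∈ P ∧ (∀ H ∈ T0, x ∈ D H) ∧ ∃ H' ∈ insert H S, x ∈ D H'}
          = {x | x ∈ P ∧ ∀ H' ∈ insert H T0, x ∈ D H'} ∪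
            {x | x ∈ P ∧ (∀ H ∈ T0, x ∈ D H) ∧ ∃ H ∈ S, x ∈ D H} := by
        ext x
        simp only [Set.mem_union, Set.mem_ofPred_eq, Finset.mem_insert, forall_eq_or_imp]
        constructor
        · rintro ⟨h1, h2, H', (rfl | hH'), h3⟩
          · exact Or.inl ⟨h1, h3, h2⟩
          · exact Or.inr ⟨h1, h2, H', hH', h3⟩
        · rintro (⟨h1, h2, h3⟩ | ⟨h1, h2, H', hH', h3⟩)
          · exact ⟨h1, h3, H, Or.inl rfl, h2⟩
          · exact ⟨h1, h2, H', Or.inr hH', h3⟩
      rw [h1]
      refine acy_union ?_ ?_ (hA _) (ih hS T0) ?_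
      · rintro x ⟨hx, hx2⟩ y ⟨hy, hy2, hy3⟩ hyx
        exact ⟨hy, fun H' hH' => hD H' x y hx hy hyx (hx2 H' hH')⟩
      · rintro x ⟨hx, hx2, H', hH', hx3⟩ y ⟨hy, hy2⟩ hyx
        exact ⟨hy, fun H' hH' => hy2 H' (Finset.mem_insert_of_mem hH'), H', hH',
          hD H' x y hx hy hyx hx3⟩
      · have h2 : {x | x ∈ P ∧ ∀ H' ∈ insert H T0, x ∈ D H'} ∩
            {x | x ∈ P ∧ (∀ H ∈ T0, x ∈ D H) ∧ ∃ H ∈ S, x ∈ D H}
            = {x | x ∈ P ∧ (∀ H' ∈ insert H T0, x ∈ D H') ∧ ∃ H ∈ S, x ∈ D H} := by
          ext x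
          simp only [Set.mem_inter_iff, Set.mem_ofPred_eq]
          constructor
          · rintro ⟨⟨h1, h2⟩, _, _, h3⟩
            exact ⟨h1, h2, h3⟩
          · rintro ⟨h1, h2, h3⟩
            exact ⟨⟨h1, h2⟩, h1, fun H' hH' => h2 H' (Finset.mem_insert_of_mem hH'), h3⟩
        rw [h2]
        exact ih hS (insert H T0)
    · rw [Finset.not_nonempty_iff_eq_empty] at hS
      subst hS
      have h1 : {x | x ∈ P ∧ (∀ H ∈ T0, x ∈ D H) ∧ ∃ H' ∈ insert H (∅ : Finset κ), x ∈ D H'}
          = {x | x ∈ P ∧ ∀ H' ∈ insert H T0, x ∈ D H'} := by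
        ext x
        simp only [Set.mem_ofPred_eq, Finset.mem_insert, forall_eq_or_imp, Finset.notMem_empty, or_false,
          exists_eq_left]
        tauto
      rw [h1]
      exact hA _

end abstract

variable {E : Type} [AddCommGroup E] [Module ℝ E] {ι : Type} [Fintype ι] (f : ι → (E →ₗ[ℝ] ℝ))

omit [Fintype ι] in
theorem convex_sign (g : E →ₗ[ℝ] ℝ) (e : SignType) : Convex ℝ {v | SignType.sign (g v) = e} := by
  rcases e with _ | _ | _
  · have : {v | SignType.sign (g v) = SignType.zero} = {v | g v = 0} := by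
      ext v; exact sign_eq_zero_iff
    rw [this]
    exact convex_hyperplane g.isLinear 0
  · have : {v | SignType.sign (g v) = SignType.neg} = {v | g v < 0} := by
      ext v; exact sign_eq_neg_one_iff
    rw [this]
    exact convex_halfSpace_lt g.isLinear 0
  · have : {v | SignType.sign (g v) = SignType.pos} = {v | 0 < g v} := by
      ext v; exact sign_eq_one_iff
    rw [this]
    exact convex_halfSpace_gt g.isLinear 0

omit [Fintype ι] in
theorem convex_sign0 (g : E →ₗ[ℝ] ℝ) (e : SignType) :
    Convex ℝ {v | SignType.sign (g v) = 0 ∨ SignType.sign (g v) = e} := by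
  rcases e with _ | _ | _
  · have : {v | SignType.sign (g v) = 0 ∨ SignType.sign (g v) = SignType.zero} = {v | g v = 0} := by
      ext v
      constructor
      · rintro (h | h) <;> exact sign_eq_zero_iff.1 h
      · intro h; exact Or.inl (sign_eq_zero_iff.2 h)
    rw [this]
    exact convex_hyperplane g.isLinear 0
  · have : {v | SignType.sign (g v) = 0 ∨ SignType.sign (g v) = SignType.neg} = {v | g v ≤ 0} := by
      ext v
      constructor
      · rintro (h | h)
        · exact (sign_eq_zero_iff.1 h).le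
        · exact (sign_eq_neg_one_iff.1 h).le
      · intro h
        rcases lt_or_eq_of_le (show g v ≤ 0 from h) with h | h
        · exact Or.inr (sign_eq_neg_one_iff.2 h)
        · exact Or.inl (sign_eq_zero_iff.2 h)
    rw [this]
    exact convex_halfSpace_le g.isLinear 0
  · have : {v | SignType.sign (g v) = 0 ∨ SignType.sign (g v) = SignType.pos} = {v | 0 ≤ g v} := by
      ext v
      constructor
      · rintro (h | h)
        · exact (sign_eq_zero_iff.1 h).ge
        · exact (sign_eq_one_iff.1 h).le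
      · intro h
        rcases lt_or_eq_of_le (show 0 ≤ g v from h) with h | h
        · exact Or.inr (sign_eq_one_iff.2 h)
        · exact Or.inl (sign_eq_zero_iff.2 h.symm)
    rw [this]
    exact convex_halfSpace_ge g.isLinear 0

omit [Fintype ι] in
theorem convex_above (F : SV ι) : Convex ℝ {v | F ≤ sgv f v} := by
  have : {v | F ≤ sgv f v} = ⋂ i ∈ {i | F i ≠ 0}, {v | SignType.sign (f i v) = F i} := by
    ext v
    simp only [Set.mem_iInter, Set.mem_ofPred_eq]
    constructor
    · intro h i hi
      exact ((h i).resolve_left hi).symm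
    · intro h i
      by_cases h0 : F i = 0
      · exact Or.inl h0
      · exact Or.inr (h i h0).symm
  rw [this]
  exact convex_iInter₂ fun i _ => convex_sign (f i) (F i)

/-- A small step keeps the nonzero signs. -/
theorem step (p q : E) : ∃ ε : ℝ, 0 < ε ∧ ∀ δ, 0 ≤ δ → δ ≤ ε → sgv f p ≤ sgv f (p + δ • q) := by
  obtain ⟨ε, hε, h⟩ := (ro_above f (sgv f p) ⊤).small (v := p) (w := q)
    ⟨Submodule.mem_top, le_refl _⟩ Submodule.mem_top
  exact ⟨ε, hε, fun δ h0 hδ => (h δ h0 hδ).2⟩

theorem comp_mem {σ τ : SV ι} (h1 : σ ∈ Faces f) (h2 : τ ∈ Faces f) : comp σ τ ∈ Faces f := by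
  obtain ⟨p, rfl⟩ := h1
  obtain ⟨q, rfl⟩ := h2
  obtain ⟨ε, hε, h⟩ := step f p q
  refine ⟨p + ε • q, ?_⟩
  have h1 := h ε hε.le le_rfl
  funext i
  rw [comp]
  split_ifs with h0
  · have h2 : f i p = 0 := sign_eq_zero_iff.1 h0
    show SignType.sign (f i (p + ε • q)) = SignType.sign (f i q)
    rw [map_add, map_smul, h2, zero_add, smul_eq_mul, sign_mul, sign_pos hε, one_mul]
  · exact ((h1 i).resolve_left h0).symm

omit [Fintype ι] in
theorem opp_mem {σ : SV ι} (h1 : σ ∈ Faces f) : opp σ ∈ Faces f := by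
  obtain ⟨p, rfl⟩ := h1
  refine ⟨-p, ?_⟩
  funext i
  show SignType.sign (f i (-p)) = -SignType.sign (f i p)
  rw [map_neg, Left.sign_neg]

/-- The indices whose signs are not constant on `Q`. -/
def nc (Q : Set E) : Set ι := {i | ∃ v ∈ Q, ∃ w ∈ Q, sgv f v i ≠ sgv f w i}

theorem nc_lt {Q Q' : Set E} (h : Q' ⊆ Q) {i : ι} (hi : i ∈ nc f Q) (e : SignType)
    (he : ∀ v ∈ Q', sgv f v i = e) : (nc f Q').ncard < (nc f Q).ncard := by
  apply Set.ncard_lt_ncard
  · refine ⟨?_, ?_⟩
    · rintro j ⟨v, hv, w, hw, hne⟩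
      exact ⟨v, h hv, w, h hw, hne⟩
    · intro hsub
      obtain ⟨v, hv, w, hw, hne⟩ := hsub hi
      exact hne ((he v hv).trans (he w hw).symm)
  · exact Set.toFinite _

/-- B1 -/
theorem acy_convex_aux (n : ℕ) : ∀ Q : Set E, Convex ℝ Q → Q.Nonempty → (nc f Q).ncard = n →
    Acy (sgv f '' Q) := by
  classical
  have hfin : Finite (SV ι) := inferInstance
  induction n using Nat.strong_induction_on with
  | _ n ih =>
    intro Q hQ hne hn
    by_cases h0 : nc f Q = ∅
    · obtain ⟨v, hv⟩ := hne
      have : sgv f '' Q = {sgv f v} := by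
        ext σ
        constructor
        · rintro ⟨w, hw, rfl⟩
          rw [Set.mem_singleton_iff]
          funext i
          by_contra hi
          have : i ∈ nc f Q := ⟨w, hw, v, hv, hi⟩
          rw [h0] at this
          exact this
        · intro h
          rw [Set.mem_singleton_iff] at h
          exact ⟨v, hv, h.symm⟩
      rw [this]
      exact acy_singleton _
    · obtain ⟨i, hi⟩ := Set.nonempty_iff_ne_empty.2 h0
      -- a point where the form vanishes
      obtain ⟨z, hz, hzi⟩ : ∃ z ∈ Q, f i z = 0 := by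
        obtain ⟨v, hv, w, hw, hvw⟩ := hi
        by_cases hv0 : f i v = 0
        · exact ⟨v, hv, hv0⟩
        by_cases hw0 : f i w = 0
        · exact ⟨w, hw, hw0⟩
        have hd : f i v - f i w ≠ 0 := by
          intro h
          apply hvw
          have : f i v = f i w := by linarith
          simp only [sgv, this]
        refine ⟨(-f i w / (f i v - f i w)) • v + (f i v / (f i v - f i w)) • w, hQ hv hw ?_ ?_ ?_, ?_⟩
        · rcases lt_or_gt_of_ne hv0 with h1 | h1 <;> rcases lt_or_gt_of_ne hw0 with h2 | h2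
          · exact absurd (show sgv f v i = sgv f w i by simp only [sgv, sign_neg h1, sign_neg h2]) hvw
          · exact div_nonneg_of_nonpos (by linarith) (by linarith)
          · exact div_nonneg (by linarith) (by linarith)
          · exact absurd (show sgv f v i = sgv f w i by simp only [sgv, sign_pos h1, sign_pos h2]) hvw
        · rcases lt_or_gt_of_ne hv0 with h1 | h1 <;> rcases lt_or_gt_of_ne hw0 with h2 | h2
          · exact absurd (show sgv f v i = sgv f w i by simp only [sgv, sign_neg h1, sign_neg h2]) hvw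
          · exact div_nonneg_of_nonpos (by linarith) (by linarith)
          · exact div_nonneg (by linarith) (by linarith)
          · exact absurd (show sgv f v i = sgv f w i by simp only [sgv, sign_pos h1, sign_pos h2]) hvw
        · rw [← add_div, div_eq_one_iff_eq hd]
          ring
        · rw [map_add, map_smul, map_smul, smul_eq_mul, smul_eq_mul]
          field_simp
          ring
      have hdec : ∀ Q' : Set E, Q' ⊆ Q → Convex ℝ Q' → Q'.Nonempty → ∀ e : SignType,
          (∀ v ∈ Q', sgv f v i = e) → Acy (sgv f '' Q') := by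
        intro Q' hsub hc hne' e he
        exact ih _ (by rw [← hn]; exact nc_lt f hsub hi e he) Q' hc hne' rfl
      have hA0 : Acy (sgv f '' {v | v ∈ Q ∧ SignType.sign (f i v) = 0}) :=
        hdec _ (fun v hv => hv.1) (hQ.inter (convex_sign (f i) 0)) ⟨z, hz, by rw [hzi, sign_zero]⟩ 0
          fun v hv => hv.2
      -- one closed side
      have hside : ∀ e : SignType, e ≠ 0 →
          Acy (sgv f '' {v | v ∈ Q ∧ (SignType.sign (f i v) = 0 ∨ SignType.sign (f i v) = e)}) := by
        intro e he
        by_cases hp : {v | v ∈ Q ∧ SignType.sign (f i v) = e}.Nonempty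
        · have hA1 : Acy (sgv f '' {v | v ∈ Q ∧ SignType.sign (f i v) = e}) :=
            hdec _ (fun v hv => hv.1) (hQ.inter (convex_sign (f i) e)) hp e fun v hv => hv.2
          have hset : sgv f '' {v | v ∈ Q ∧ (SignType.sign (f i v) = 0 ∨ SignType.sign (f i v) = e)}
              = (sgv f '' {v | v ∈ Q ∧ SignType.sign (f i v) = e}) ∪
                (((Set.toFinite (sgv f '' {v | v ∈ Q ∧ SignType.sign (f i v) = 0})).toFinset :
                  Finset (SV ι)) : Set (SV ι)) := by
            rw [Set.Finite.coe_toFinset]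
            ext σ
            constructor
            · rintro ⟨v, ⟨hv, h1 | h1⟩, rfl⟩
              · exact Or.inr ⟨v, ⟨hv, h1⟩, rfl⟩
              · exact Or.inl ⟨v, ⟨hv, h1⟩, rfl⟩
            · rintro (⟨v, ⟨hv, h1⟩, rfl⟩ | ⟨v, ⟨hv, h1⟩, rfl⟩)
              · exact ⟨v, ⟨hv, Or.inr h1⟩, rfl⟩
              · exact ⟨v, ⟨hv, Or.inl h1⟩, rfl⟩
          rw [hset]
          refine acy_add hA1 _ ?_ ?_
          · intro s hs
            rw [Set.Finite.mem_toFinset] at hs
            obtain ⟨v, ⟨_, hv⟩, rfl⟩ := hs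
            rintro ⟨w, ⟨_, hw⟩, hwv⟩
            have h1 : sgv f w i = sgv f v i := by rw [hwv]
            have h2 : SignType.sign (f i w) = SignType.sign (f i v) := h1
            rw [hw, hv] at h2
            exact he h2
          · intro s hs
            rw [Set.Finite.mem_toFinset] at hs
            obtain ⟨v, ⟨hvQ, hv⟩, rfl⟩ := hs
            have hset2 : {x | x ∈ sgv f '' {v | v ∈ Q ∧ SignType.sign (f i v) = e} ∧ sgv f v < x}
                = sgv f '' {w | w ∈ Q ∧ SignType.sign (f i w) = e ∧ sgv f v ≤ sgv f w} := by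
              ext x
              constructor
              · rintro ⟨⟨w, ⟨hwQ, hw⟩, rfl⟩, hlt⟩
                exact ⟨w, ⟨hwQ, hw, hlt.le⟩, rfl⟩
              · rintro ⟨w, ⟨hwQ, hw, hle⟩, rfl⟩
                refine ⟨⟨w, ⟨hwQ, hw⟩, rfl⟩, lt_of_le_of_ne hle ?_⟩
                intro heq
                have h1 : sgv f v i = sgv f w i := by rw [heq]
                have h2 : SignType.sign (f i v) = SignType.sign (f i w) := h1
                rw [hw, hv] at h2
                exact he h2.symm
            rw [hset2]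
            refine hdec _ (fun w hw => hw.1) ?_ ?_ e fun w hw => hw.2.1
            · exact hQ.inter ((convex_sign (f i) e).inter (convex_above f (sgv f v)))
            · obtain ⟨p, hpQ, hp⟩ := hp
              obtain ⟨ε, hε, h⟩ := step f v (p - v)
              have hm0 : 0 < min ε 1 := lt_min hε one_pos
              refine ⟨v + (min ε 1) • (p - v), ?_, ?_, h _ hm0.le (min_le_left _ _)⟩
              · have := hQ hvQ hpQ (a := 1 - min ε 1) (b := min ε 1)
                  (by linarith [min_le_right ε 1]) hm0.le (by ring)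
                convert this using 1
                rw [smul_sub, sub_smul, one_smul]
                abel
              · have hv0 : f i v = 0 := sign_eq_zero_iff.1 hv
                rw [map_add, map_smul, map_sub, hv0, zero_add, sub_zero, smul_eq_mul, sign_mul,
                  sign_pos hm0, one_mul, hp]
        · have hset : {v | v ∈ Q ∧ (SignType.sign (f i v) = 0 ∨ SignType.sign (f i v) = e)}
              = {v | v ∈ Q ∧ SignType.sign (f i v) = 0} := by
            ext v
            constructor
            · rintro ⟨hv, h1 | h1⟩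
              · exact ⟨hv, h1⟩
              · exact absurd ⟨v, hv, h1⟩ hp
            · rintro ⟨hv, h1⟩
              exact ⟨hv, Or.inl h1⟩
          rw [hset]
          exact hA0
      have hunion : sgv f '' Q =
          (sgv f '' {v | v ∈ Q ∧ (SignType.sign (f i v) = 0 ∨ SignType.sign (f i v) = 1)}) ∪
          (sgv f '' {v | v ∈ Q ∧ (SignType.sign (f i v) = 0 ∨ SignType.sign (f i v) = -1)}) := by
        ext σ
        constructor
        · rintro ⟨v, hv, rfl⟩
          rcases h1 : SignType.sign (f i v) with _ | _ | _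
          · exact Or.inl ⟨v, ⟨hv, Or.inl h1⟩, rfl⟩
          · exact Or.inr ⟨v, ⟨hv, Or.inr h1⟩, rfl⟩
          · exact Or.inl ⟨v, ⟨hv, Or.inr h1⟩, rfl⟩
        · rintro (⟨v, ⟨hv, _⟩, rfl⟩ | ⟨v, ⟨hv, _⟩, rfl⟩) <;> exact ⟨v, hv, rfl⟩
      have hdown : ∀ e e' : SignType,
          ∀ x ∈ sgv f '' {v | v ∈ Q ∧ (SignType.sign (f i v) = 0 ∨ SignType.sign (f i v) = e)},
          ∀ y ∈ sgv f '' {v | v ∈ Q ∧ (SignType.sign (f i v) = 0 ∨ SignType.sign (f i v) = e')},
          y ≤ x → y ∈ sgv f '' {v | v ∈ Q ∧ (SignType.sign (f i v) = 0 ∨ SignType.sign (f i v) = e)} := by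
        rintro e e' _ ⟨v, ⟨hv, h1⟩, rfl⟩ _ ⟨w, ⟨hw, _⟩, rfl⟩ hle
        refine ⟨w, ⟨hw, ?_⟩, rfl⟩
        rcases hle i with h3 | h3
        · exact Or.inl h3
        · have h4 : SignType.sign (f i w) = SignType.sign (f i v) := h3
          rw [h4]
          exact h1
      rw [hunion]
      refine acy_union (hdown 1 (-1)) (hdown (-1) 1) (hside 1 (by decide)) (hside (-1) (by decide)) ?_
      have hinter : (sgv f '' {v | v ∈ Q ∧ (SignType.sign (f i v) = 0 ∨ SignType.sign (f i v) = 1)}) ∩
          (sgv f '' {v | v ∈ Q ∧ (SignType.sign (f i v) = 0 ∨ SignType.sign (f i v) = -1)})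
          = sgv f '' {v | v ∈ Q ∧ SignType.sign (f i v) = 0} := by
        ext σ
        constructor
        · rintro ⟨⟨v, ⟨hv, h1⟩, rfl⟩, ⟨w, ⟨hw, h2⟩, hwv⟩⟩
          refine ⟨v, ⟨hv, ?_⟩, rfl⟩
          have h3 : sgv f w i = sgv f v i := by rw [hwv]
          have h4 : SignType.sign (f i w) = SignType.sign (f i v) := h3
          rw [h4] at h2
          rcases h1 with h1 | h1
          · exact h1
          · rcases h2 with h2 | h2
            · exact h2
            · rw [h1] at h2
              exact absurd h2 (by decide)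
        · rintro ⟨v, ⟨hv, h1⟩, rfl⟩
          exact ⟨⟨v, ⟨hv, Or.inl h1⟩, rfl⟩, ⟨v, ⟨hv, Or.inl h1⟩, rfl⟩⟩
      rw [hinter]
      exact hA0

/-- B1 -/
theorem acy_convex (Q : Set E) (hQ : Convex ℝ Q) (hne : Q.Nonempty) : Acy (sgv f '' Q) :=
  acy_convex_aux f _ Q hQ hne rfl

/-- B2 -/
theorem acy_below (y w : SV ι) (hy : y ∈ Faces f) (hw : w ∈ Faces f) (hz : ∀ i, y i = 0 ↔ w i = 0)
    (hne : y ≠ w) : Acy {G | G ∈ Faces f ∧ G < w ∧ ∀ i, y i = w i → G i = w i} := by
  classical
  let C : Set E := ⋂ i ∈ {i | y i = w i}, {v | SignType.sign (f i v) = w i}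
  have hC : Convex ℝ C := convex_iInter₂ fun i _ => convex_sign (f i) (w i)
  have hmC : ∀ v, v ∈ C ↔ ∀ i, y i = w i → sgv f v i = w i := by
    intro v
    simp only [C, Set.mem_iInter, Set.mem_ofPred_eq]
    rfl
  obtain ⟨a, rfl⟩ := hy
  obtain ⟨b, rfl⟩ := hw
  have ha : a ∈ C := (hmC a).2 fun i hi => hi
  have hb : b ∈ C := (hmC b).2 fun i _ => rfl
  let S : Finset ι := Finset.univ.filter fun i => sgv f a i ≠ sgv f b i
  have hS : S.Nonempty := by
    by_contra hS
    rw [Finset.not_nonempty_iff_eq_empty] at hS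
    apply hne
    funext i
    by_contra hi
    have : i ∈ S := Finset.mem_filter.2 ⟨Finset.mem_univ _, hi⟩
    rw [hS] at this
    exact absurd this (Finset.notMem_empty i)
  have h1 := acy_cover (sgv f '' C) (fun H => {G : SV ι | G H = 0 ∨ G H = sgv f a H})
    (by
      intro H x y _ _ hyx hx
      rcases hyx H with h | h
      · exact Or.inl h
      · show y H = 0 ∨ y H = sgv f a H
        rw [h]
        exact hx)
    (by
      intro T
      have hset : {x | x ∈ sgv f '' C ∧ ∀ H ∈ T, x ∈ {G : SV ι | G H = 0 ∨ G H = sgv f a H}}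
          = sgv f '' (C ∩ ⋂ H ∈ T, {v | SignType.sign (f H v) = 0 ∨ SignType.sign (f H v) = sgv f a H}) := by
        ext x
        constructor
        · rintro ⟨⟨v, hv, rfl⟩, h⟩
          refine ⟨v, ⟨hv, ?_⟩, rfl⟩
          rw [Set.mem_iInter₂]
          exact h
        · rintro ⟨v, ⟨hv, h⟩, rfl⟩
          rw [Set.mem_iInter₂] at h
          exact ⟨⟨v, hv, rfl⟩, h⟩
      rw [hset]
      refine acy_convex f _ (hC.inter (convex_iInter₂ fun H _ => convex_sign0 (f H) _)) ⟨a, ha, ?_⟩
      rw [Set.mem_iInter₂]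
      exact fun H _ => Or.inr rfl) S hS ∅
  have hset1 : {x | x ∈ sgv f '' C ∧ (∀ H ∈ (∅ : Finset ι), x ∈ {G : SV ι | G H = 0 ∨ G H = sgv f a H}) ∧
      ∃ H ∈ S, x ∈ {G : SV ι | G H = 0 ∨ G H = sgv f a H}} = {x | x ∈ sgv f '' C ∧ x ≠ sgv f b} := by
    ext x
    constructor
    · rintro ⟨hx, _, H, hH, h⟩
      refine ⟨hx, ?_⟩
      rintro rfl
      have h2 : sgv f a H ≠ sgv f b H := (Finset.mem_filter.1 hH).2
      rcases h with h | h
      · exact h2 (((hz H).2 h).trans h.symm)
      · exact h2 h.symm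
    · rintro ⟨hx, hxb⟩
      refine ⟨hx, by simp, ?_⟩
      by_contra hcon
      push Not at hcon
      apply hxb
      funext i
      obtain ⟨v, hv, rfl⟩ := hx
      by_cases hi : sgv f a i = sgv f b i
      · exact (hmC v).1 hv i hi
      · have h2 := hcon i (Finset.mem_filter.2 ⟨Finset.mem_univ _, hi⟩)
        have h3 : sgv f v i ≠ 0 ∧ sgv f v i ≠ sgv f a i := by
          constructor
          · intro h; exact h2 (Or.inl h)
          · intro h; exact h2 (Or.inr h)
        have h4 : sgv f b i ≠ 0 := fun h => hi (((hz i).2 h).trans h.symm)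
        have h5 : sgv f a i ≠ 0 := fun h => hi (h.trans ((hz i).1 h).symm)
        have key : ∀ p q r : SignType, p ≠ 0 → p ≠ r → q ≠ 0 → r ≠ 0 → r ≠ q → p = q := by decide
        exact key _ _ _ h3.1 h3.2 h4 h5 hi
  rw [hset1] at h1
  have h2 : Acy (sgv f '' C) := acy_convex f C hC ⟨a, ha⟩
  have hset2 : sgv f '' C = insert (sgv f b) {x | x ∈ sgv f '' C ∧ x ≠ sgv f b} := by
    ext x
    constructor
    · intro hx
      by_cases h : x = sgv f b
      · exact Or.inl h
      · exact Or.inr ⟨hx, h⟩
    · rintro (rfl | h)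
      · exact ⟨b, hb, rfl⟩
      · exact h.1
  rw [hset2] at h2
  have h3 := acy_link (p := sgv f b) (P := {x | x ∈ sgv f '' C ∧ x ≠ sgv f b}) (fun h => h.2 rfl) h2 h1 (by
    rintro x ⟨⟨v, hv, rfl⟩, _⟩ hlt
    obtain ⟨i, hi1, hi2⟩ : ∃ i, sgv f b i = 0 ∧ sgv f v i ≠ 0 := by
      by_contra hcon
      push Not at hcon
      apply hlt.ne
      funext i
      rcases hlt.le i with h | h
      · rw [h, hcon i h]
      · exact h
    apply hi2
    have h5 := (hmC v).1 hv i (((hz i).2 hi1).trans hi1.symm)
    rw [h5, hi1])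
  have hset3 : {x | x ∈ {x | x ∈ sgv f '' C ∧ x ≠ sgv f b} ∧ x < sgv f b}
      = {G | G ∈ Faces f ∧ G < sgv f b ∧ ∀ i, sgv f a i = sgv f b i → G i = sgv f b i} := by
    ext x
    constructor
    · rintro ⟨⟨⟨v, hv, rfl⟩, _⟩, hlt⟩
      exact ⟨⟨v, rfl⟩, hlt, (hmC v).1 hv⟩
    · rintro ⟨⟨v, rfl⟩, hlt, h⟩
      exact ⟨⟨⟨v, (hmC v).2 h, rfl⟩, hlt.ne⟩, hlt⟩
  rwa [hset3] at h3

/-- B3 -/
theorem acy_visible (y z F : SV ι) (hy : y ∈ Faces f) (hz : z ∈ Faces f) (hy0 : ∀ i, y i ≠ 0)
    (hz0 : ∀ i, z i ≠ 0) (hF : F ∈ Faces f) (hFy : F ≤ y) (h : ∃ i, F i = 0 ∧ y i ≠ z i) :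
    Acy {G | G ∈ Faces f ∧ F ≤ G ∧ G < y ∧ ∀ i, G i = 0 → y i ≠ z i} := by
  have hc : ∀ i, comp F z i = if F i = 0 then z i else F i := fun i => rfl
  have h1 := acy_below f (comp F z) y (comp_mem f hF hz) hy (by
    intro i
    rw [hc]
    constructor
    · intro h
      split_ifs at h with h0
      · exact absurd h (hz0 i)
      · exact absurd h h0
    · intro h
      exact absurd h (hy0 i)) (by
    obtain ⟨i, hi1, hi2⟩ := h
    intro heq
    have := congrFun heq i
    rw [hc, if_pos hi1] at this
    exact hi2 this.symm)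
  have hset : {G | G ∈ Faces f ∧ G < y ∧ ∀ i, comp F z i = y i → G i = y i}
      = {G | G ∈ Faces f ∧ F ≤ G ∧ G < y ∧ ∀ i, G i = 0 → y i ≠ z i} := by
    ext G
    constructor
    · rintro ⟨hG, hlt, h2⟩
      refine ⟨hG, ?_, hlt, ?_⟩
      · intro i
        by_cases h0 : F i = 0
        · exact Or.inl h0
        · right
          have h3 := (hFy i).resolve_left h0
          rw [h2 i (by rw [hc, if_neg h0, h3]), h3]
      · intro i hi heq
        have h3 : comp F z i = y i := by
          rw [hc]
          split_ifs with h0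
          · exact heq.symm
          · exact (hFy i).resolve_left h0
        rw [h2 i h3] at hi
        exact hy0 i hi
    · rintro ⟨hG, hFG, hlt, h2⟩
      refine ⟨hG, hlt, ?_⟩
      intro i hi
      rw [hc] at hi
      by_cases h0 : F i = 0
      · rw [if_pos h0] at hi
        refine (hlt.le i).resolve_left fun h3 => ?_
        exact h2 i h3 hi.symm
      · rw [if_neg h0] at hi
        rw [← (hFG i).resolve_left h0]
        exact hi
  rwa [hset] at h1

omit [Fintype ι] in
/-- In a pair of comparable distinct sign vectors some zero becomes nonzero. -/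
theorem exists_of_lt {σ τ : SV ι} (h : σ < τ) : ∃ i, σ i = 0 ∧ τ i ≠ 0 := by
  by_contra hcon
  push Not at hcon
  apply h.ne
  funext i
  rcases h.le i with h1 | h1
  · rw [h1, hcon i h1]
  · exact h1

/-- The facet property. -/
theorem facet_prop {K' K t : SV ι} (hK' : K' ∈ Faces f) (ht : t ∈ Faces f) (h2 : K' < K)
    (h3 : ∀ τ ∈ Faces f, τ < K → ¬ K' < τ) (htK : t ≤ K) {i : ι} (hi : K' i = 0) (hKi : K i ≠ 0)
    (hti : t i = 0) : t ≤ K' := by
  have hc : ∀ i, comp K' t i = if K' i = 0 then t i else K' i := fun i => rfl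
  have h4 : comp K' t ≤ K := by
    intro j
    rw [hc]
    split_ifs with h0
    · exact htK j
    · exact Or.inr ((h2.le j).resolve_left h0)
  have h5 : comp K' t < K := by
    refine lt_of_le_of_ne h4 ?_
    intro heq
    have := congrFun heq i
    rw [hc, if_pos hi, hti] at this
    exact hKi this.symm
  have h6 : K' ≤ comp K' t := by
    intro j
    rw [hc]
    split_ifs with h0
    · exact Or.inl h0
    · exact Or.inr rfl
  have h7 : K' = comp K' t := by
    by_contra hne
    exact h3 _ (comp_mem f hK' ht) h5 (lt_of_le_of_ne h6 hne)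
  intro j
  by_cases h0 : t j = 0
  · exact Or.inl h0
  right
  have h8 : K' j ≠ 0 := by
    intro h8
    have := congrFun h7 j
    rw [hc, if_pos h8, h8] at this
    exact h0 this.symm
  rw [(htK j).resolve_left h0, (h2.le j).resolve_left h8]

/-- B4 -/
theorem acy_punctured (σ K' K : SV ι) (_hσ : σ ∈ Faces f) (hK' : K' ∈ Faces f) (hK : K ∈ Faces f)
    (h1 : σ < K') (h2 : K' < K) (h3 : ∀ τ ∈ Faces f, τ < K → ¬ K' < τ) :
    Acy {τ | τ ∈ Faces f ∧ σ < τ ∧ τ < K ∧ τ ≠ K'} := by
  classical
  obtain ⟨i0, hi0, hi0'⟩ := exists_of_lt h2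
  -- the upper links
  have hQ : ∀ s ∈ Faces f, s < K' → Acy {t | t ∈ Faces f ∧ s < t ∧ t < K ∧ ¬ t ≤ K'} := by
    intro s hs hsK
    let u : SV ι := comp s (opp (comp K' (opp K)))
    have hu : ∀ i, u i = if s i = 0 then (if K' i = 0 then K i else -(K' i)) else s i := by
      intro i
      show (if s i = 0 then -(if K' i = 0 then -(K i) else K' i) else s i) = _
      split_ifs <;> simp
    have hsK' : ∀ i, s i ≠ 0 → s i = K i := fun i hi => by
      have := (hsK.le i).resolve_left hi
      rw [this]
      exact (h2.le i).resolve_left (by rw [← this]; exact hi)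
    have huK : ∀ i, u i = K i ↔ ¬ (s i = 0 ∧ K' i ≠ 0) := by
      intro i
      rw [hu]
      constructor
      · rintro h ⟨h4, h5⟩
        rw [if_pos h4, if_neg h5, ← (h2.le i).resolve_left h5] at h
        have key : ∀ p : SignType, p ≠ 0 → -p ≠ p := by decide
        exact key _ h5 h
      · intro h
        by_cases h4 : s i = 0
        · rw [if_pos h4, if_pos]
          by_contra h5
          exact h ⟨h4, h5⟩
        · rw [if_neg h4]
          exact hsK' i h4
    have h4 := acy_below f u K (comp_mem f hs (opp_mem f (comp_mem f hK' (opp_mem f hK)))) hK (by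
      intro i
      rw [hu]
      split_ifs with h4 h5
      · exact Iff.rfl
      · rw [← (h2.le i).resolve_left h5]
        constructor
        · intro h
          have key : ∀ p : SignType, -p = 0 → p = 0 := by decide
          exact absurd (key _ h) h5
        · intro h; exact absurd h h5
      · rw [← hsK' i h4]) (by
      intro heq
      obtain ⟨i, hi, hi'⟩ := exists_of_lt hsK
      exact (huK i).1 (by rw [heq]) ⟨hi, hi'⟩)
    have hset : {G | G ∈ Faces f ∧ G < K ∧ ∀ i, u i = K i → G i = K i}
        = {t | t ∈ Faces f ∧ s < t ∧ t < K ∧ ¬ t ≤ K'} := by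
      ext t
      constructor
      · rintro ⟨ht, htK, h5⟩
        have hi : t i0 = K i0 := h5 i0 ((huK i0).2 fun h => h.2 hi0)
        refine ⟨ht, lt_of_le_of_ne ?_ ?_, htK, ?_⟩
        · intro i
          by_cases h6 : s i = 0
          · exact Or.inl h6
          · right
            rw [h5 i ((huK i).2 fun h => h6 h.1), hsK' i h6]
        · rintro rfl
          have h6 : s i0 ≠ 0 := by rw [hi]; exact hi0'
          exact h6 (by rw [(hsK.le i0).resolve_left h6, hi0])
        · intro hle
          have h6 : t i0 ≠ 0 := by rw [hi]; exact hi0'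
          have := (hle i0).resolve_left h6
          rw [hi0] at this
          exact h6 this
      · rintro ⟨ht, hst, htK, hn⟩
        refine ⟨ht, htK, ?_⟩
        intro i hi
        have h5 := (huK i).1 hi
        by_cases h6 : s i = 0
        · have h7 : K' i = 0 := by
            by_contra h7
            exact h5 ⟨h6, h7⟩
          by_cases h8 : K i = 0
          · rcases htK.le i with h9 | h9
            · rw [h9, h8]
            · exact h9
          · refine (htK.le i).resolve_left fun h9 => hn ?_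
            exact facet_prop f hK' ht h2 h3 htK.le h7 h8 h9
        · rw [← (hst.le i).resolve_left h6]
          exact hsK' i h6
    rwa [hset] at h4
  have hfin : (({τ | τ ∈ Faces f ∧ σ < τ ∧ τ < K'} : Set (SV ι))).Finite := Set.toFinite _
  have h4 := acy_add (hQ σ _hσ h1) hfin.toFinset (by
    intro s hs
    rw [Set.Finite.mem_toFinset] at hs
    rintro ⟨_, _, _, h⟩
    exact h hs.2.2.le) (by
    intro s hs
    rw [Set.Finite.mem_toFinset] at hs
    have hset : {x | x ∈ {t | t ∈ Faces f ∧ σ < t ∧ t < K ∧ ¬ t ≤ K'} ∧ s < x}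
        = {t | t ∈ Faces f ∧ s < t ∧ t < K ∧ ¬ t ≤ K'} := by
      ext x
      constructor
      · rintro ⟨⟨h5, _, h6, h7⟩, h8⟩
        exact ⟨h5, h8, h6, h7⟩
      · rintro ⟨h5, h8, h6, h7⟩
        exact ⟨⟨h5, hs.2.1.trans h8, h6, h7⟩, h8⟩
    rw [hset]
    exact hQ s hs.1 hs.2.2)
  have hset : {t | t ∈ Faces f ∧ σ < t ∧ t < K ∧ ¬ t ≤ K'} ∪ (hfin.toFinset : Set (SV ι))
      = {τ | τ ∈ Faces f ∧ σ < τ ∧ τ < K ∧ τ ≠ K'} := by
    rw [Set.Finite.coe_toFinset]
    ext x
    constructor
    · rintro (⟨h5, h6, h7, h8⟩ | ⟨h5, h6, h7⟩)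
      · exact ⟨h5, h6, h7, fun h => h8 h.le⟩
      · exact ⟨h5, h6, h7.trans h2, h7.ne⟩
    · rintro ⟨h5, h6, h7, h8⟩
      by_cases h9 : x ≤ K'
      · exact Or.inr ⟨h5, h6, lt_of_le_of_ne h9 h8⟩
      · exact Or.inl ⟨h5, h6, h7, h9⟩
  rwa [hset] at h4

/-- B5: a facet has codimension one -/
theorem finrank_facet [FiniteDimensional ℝ E] (K' K : SV ι) (hK' : K' ∈ Faces f) (hK : K ∈ Faces f)
    (h2 : K' < K) (h3 : ∀ τ ∈ Faces f, τ < K → ¬ K' < τ) :
    Module.finrank ℝ (Zs f K') + 1 = Module.finrank ℝ (Zs f K) := by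
  classical
  obtain ⟨i, hi, hiK⟩ := exists_of_lt h2
  obtain ⟨p, rfl⟩ := hK
  have hp : p ∈ Zs f (sgv f p) := (mem_Zs f).2 fun j hj => sign_eq_zero_iff.1 hj
  have key : Zs f K' = Zs f (sgv f p) ⊓ LinearMap.ker (f i) := by
    apply le_antisymm
    · exact le_inf (fl_mono f h2.le) (fun v hv => (mem_Zs f).1 hv i hi)
    · rintro v ⟨hv, hvi⟩
      by_contra hcon
      have hex : ∃ v, v ∈ Zs f (sgv f p) ∧ f i v = 0 ∧ ∃ j, K' j = 0 ∧
          SignType.sign (f j v) = -(sgv f p j) ∧ sgv f p j ≠ 0 := by
        have h4 : ∃ j, K' j = 0 ∧ f j v ≠ 0 := by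
          by_contra h4
          push Not at h4
          exact hcon ((mem_Zs f).2 h4)
        obtain ⟨j, hj, hjv⟩ := h4
        have hpj : sgv f p j ≠ 0 := fun h => hjv ((mem_Zs f).1 hv j h)
        have hs : SignType.sign (f j v) ≠ 0 := fun h => hjv (sign_eq_zero_iff.1 h)
        have key : ∀ a b : SignType, a ≠ 0 → b ≠ 0 → a = -b ∨ a = b := by decide
        rcases key _ _ hs hpj with h5 | h5
        · exact ⟨v, hv, hvi, j, hj, h5, hpj⟩
        · refine ⟨-v, Submodule.neg_mem _ hv, ?_, j, hj, ?_, hpj⟩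
          · have : f i v = 0 := hvi
            rw [map_neg, this, neg_zero]
          · rw [map_neg, Left.sign_neg, h5]
      clear hcon hvi hv v
      obtain ⟨v, hv, hvi, j, hj, hjs, hpj⟩ := hex
      let S : Finset ι := Finset.univ.filter fun m =>
        K' m = 0 ∧ SignType.sign (f m v) = -(sgv f p m) ∧ sgv f p m ≠ 0
      obtain ⟨m, hmS, hmin⟩ := S.exists_min_image (fun m => -(f m p) / (f m v))
        ⟨j, Finset.mem_filter.2 ⟨Finset.mem_univ _, hj, hjs, hpj⟩⟩
      obtain ⟨hm1, hm2, hm3⟩ := (Finset.mem_filter.1 hmS).2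
      -- opposite signs
      have hopp : ∀ n, SignType.sign (f n v) = -(sgv f p n) → sgv f p n ≠ 0 →
          (0 < f n p ∧ f n v < 0) ∨ (f n p < 0 ∧ 0 < f n v) := by
        intro n h4 h5
        have h6 : SignType.sign (f n v) = -SignType.sign (f n p) := h4
        rcases lt_trichotomy (f n p) 0 with h7 | h7 | h7
        · right
          rw [sign_neg h7, neg_neg] at h6
          exact ⟨h7, sign_eq_one_iff.1 h6⟩
        · exact absurd (sign_eq_zero_iff.2 h7) h5
        · left
          rw [sign_pos h7] at h6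
          exact ⟨h7, sign_eq_neg_one_iff.1 h6⟩
      let t : ℝ := -(f m p) / (f m v)
      have ht : 0 < t := by
        rcases hopp m hm2 hm3 with ⟨h4, h5⟩ | ⟨h4, h5⟩
        · exact div_pos_of_neg_of_neg (by linarith) h5
        · exact div_pos (by linarith) h5
      have hmv : f m v ≠ 0 := by
        rcases hopp m hm2 hm3 with ⟨h4, h5⟩ | ⟨h4, h5⟩
        · exact h5.ne
        · exact h5.ne'
      have hval : ∀ n, f n (p + t • v) = f n p + t * f n v := fun n => by
        rw [map_add, map_smul, smul_eq_mul]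
      -- the signs of the new point
      have hx : ∀ n, K' n = 0 → sgv f (p + t • v) n = 0 ∨ sgv f (p + t • v) n = sgv f p n := by
        intro n hn
        show SignType.sign (f n (p + t • v)) = 0 ∨ SignType.sign (f n (p + t • v)) = SignType.sign (f n p)
        rw [hval]
        by_cases h4 : n ∈ S
        · obtain ⟨_, h5, h6⟩ := (Finset.mem_filter.1 h4).2
          have h7 : t ≤ -(f n p) / (f n v) := hmin n h4
          rcases hopp n h5 h6 with ⟨h8, h9⟩ | ⟨h8, h9⟩
          · rw [le_div_iff_of_neg h9] at h7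
            have h10 : 0 ≤ f n p + t * f n v := by linarith
            rcases h10.lt_or_eq with h | h
            · right; rw [sign_pos h, sign_pos h8]
            · left; rw [← h, sign_zero]
          · rw [le_div_iff₀ h9] at h7
            have h10 : f n p + t * f n v ≤ 0 := by linarith
            rcases h10.lt_or_eq with h | h
            · right; rw [sign_neg h, sign_neg h8]
            · left; rw [h, sign_zero]
        · rcases lt_trichotomy (f n p) 0 with h7 | h7 | h7
          · have h8 : f n v ≤ 0 := by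
              by_contra h8
              push Not at h8
              apply h4
              refine Finset.mem_filter.2 ⟨Finset.mem_univ _, hn, ?_, ?_⟩
              · show SignType.sign (f n v) = -SignType.sign (f n p)
                rw [sign_pos h8, sign_neg h7, neg_neg]
              · intro h; exact h7.ne (sign_eq_zero_iff.1 h)
            right
            have : f n p + t * f n v < 0 := by nlinarith [mul_nonneg ht.le (neg_nonneg.2 h8)]
            rw [sign_neg this, sign_neg h7]
          · have h8 : f n v = 0 := (mem_Zs f).1 hv n (sign_eq_zero_iff.2 h7)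
            left
            rw [h7, h8]
            simp
          · have h8 : 0 ≤ f n v := by
              by_contra h8
              push Not at h8
              apply h4
              refine Finset.mem_filter.2 ⟨Finset.mem_univ _, hn, ?_, ?_⟩
              · show SignType.sign (f n v) = -SignType.sign (f n p)
                rw [sign_neg h8, sign_pos h7]
              · intro h; exact h7.ne' (sign_eq_zero_iff.1 h)
            right
            have : 0 < f n p + t * f n v := by nlinarith [mul_nonneg ht.le h8]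
            rw [sign_pos this, sign_pos h7]
      have hc : ∀ n, comp K' (sgv f (p + t • v)) n
          = if K' n = 0 then sgv f (p + t • v) n else K' n := fun n => rfl
      have hxi : sgv f (p + t • v) i ≠ 0 := by
        intro h
        have h4 : f i (p + t • v) = 0 := sign_eq_zero_iff.1 h
        rw [hval, hvi, mul_zero, add_zero] at h4
        exact hiK (sign_eq_zero_iff.2 h4)
      refine h3 (comp K' (sgv f (p + t • v))) (comp_mem f hK' ⟨_, rfl⟩)
        (lt_of_le_of_ne ?_ ?_) (lt_of_le_of_ne ?_ ?_)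
      · intro n
        rw [hc]
        split_ifs with h0
        · exact hx n h0
        · exact Or.inr ((h2.le n).resolve_left h0)
      · intro heq
        have h4 := congrFun heq m
        rw [hc, if_pos hm1] at h4
        apply hm3
        rw [← h4]
        apply sign_eq_zero_iff.2
        rw [hval]
        show f m p + (-(f m p) / (f m v)) * f m v = 0
        rw [div_mul_cancel₀ _ hmv]
        ring
      · intro n
        rw [hc]
        split_ifs with h0
        · exact Or.inl h0
        · exact Or.inr rfl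
      · intro heq
        have h4 := congrFun heq i
        rw [hc, if_pos hi, hi] at h4
        exact hxi h4.symm
  rw [key]
  refine finrank_inf_ker _ _ fun h => hiK ?_
  exact sign_eq_zero_iff.2 (h hp)

end Pool.Agent.V8H61.MB
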